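import Mathlib

set_option autoImplicit false

/-! # Rigidity of the two-sided window pattern -/

namespace Pool.Agent.Lib.MP_922b49_co

/-- The window pattern: `y - x ∈ [-M, M)` or `y - x ≥ n`. -/
def W (M n x y : ℕ) : Prop := (x ≤ y + M ∧ y < x + M) ∨ x + n ≤ y

section

variable (M n K : ℕ) (α β : ℕ → ℝ) (t : ℝ)

/-- The pattern is represented by `α`, `β` with upper threshold `t`. -/
def Rep : Prop := ∀ x y, x ≤ K → y ≤ K →
  (W M n x y ↔ (-1 ≤ α x + β y ∧ α x + β y < 1) ∨ t ≤ α x + β y)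

variable {M n K α β t}

/-- All edges at a vertex not adjacent to the maximum are low. -/
lemma low_of_not (h : Rep M n K α β t) {l m x : ℕ} (hl : l ≤ K) (hm : m ≤ l)
    (hmax : ∀ y ≤ l, β y ≤ β m) (hx : x ≤ K) (hnot : ¬ W M n x m) {y : ℕ} (hy : y ≤ l)
    (hxy : W M n x y) : -1 ≤ α x + β y ∧ α x + β y < 1 := by
  have h1 := (h x y hx (hy.trans hl)).mp hxy
  rcases h1 with h1 | h1
  · exact h1
  · exfalso
    apply hnot
    rw [h x m hx (hm.trans hl)]
    right
    have := hmax y hy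
    linarith

/-- The maximum of `β` on `[0, l]` is attained close to `l`. -/
lemma argmax_near (h : Rep M n K α β t) (hM : 1 ≤ M) (hn : 8 * M ≤ n) {l m : ℕ}
    (hl1 : 2 * n + 6 * M ≤ l) (hl : l ≤ K) (hm : m ≤ l) (hmax : ∀ y ≤ l, β y ≤ β m) :
    l < m + 6 * M := by
  by_contra hcon
  push Not at hcon
  -- choose three starting points
  obtain ⟨x, hx1, hx2, hx3, hxl⟩ : ∃ x, ¬ W M n x m ∧ ¬ W M n (x + 2 * M) m ∧
      ¬ W M n (x + 4 * M) m ∧ x + 4 * M + n ≤ l := by
    by_cases hmn : n ≤ m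
    · refine ⟨m - n + 1, ?_, ?_, ?_, ?_⟩ <;> (try unfold W) <;> omega
    · refine ⟨m + M + 1, ?_, ?_, ?_, ?_⟩ <;> (try unfold W) <;> omega
  have e1 := fun y (hy : y ≤ l) hW => low_of_not h hl hm hmax (x := x) (by omega) hx1 hy hW
  have e2 := fun y (hy : y ≤ l) hW => low_of_not h hl hm hmax (x := x + 2 * M) (by omega) hx2 hy hW
  have e3 := fun y (hy : y ≤ l) hW => low_of_not h hl hm hmax (x := x + 4 * M) (by omega) hx3 hy hW
  have hnl : ∀ u v, u ≤ l → v ≤ l → ¬ W M n u v → ¬ (-1 ≤ α u + β v ∧ α u + β v < 1) := by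
    intro u v hu hv hW hlow
    exact hW ((h u v (hu.trans hl) (hv.trans hl)).mpr (Or.inl hlow))
  have a1 := e1 l le_rfl (by unfold W; omega)
  have a2 := e2 l le_rfl (by unfold W; omega)
  have a3 := e3 l le_rfl (by unfold W; omega)
  have b1 := e1 x (by omega) (by unfold W; omega)
  have b2 := e2 (x + 2 * M) (by omega) (by unfold W; omega)
  have b3 := e3 (x + 4 * M) (by omega) (by unfold W; omega)
  have c12 := hnl x (x + 2 * M) (by omega) (by omega) (by unfold W; omega)
  have c13 := hnl x (x + 4 * M) (by omega) (by omega) (by unfold W; omega)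
  have c21 := hnl (x + 2 * M) x (by omega) (by omega) (by unfold W; omega)
  have c23 := hnl (x + 2 * M) (x + 4 * M) (by omega) (by omega) (by unfold W; omega)
  have c31 := hnl (x + 4 * M) x (by omega) (by omega) (by unfold W; omega)
  have c32 := hnl (x + 4 * M) (x + 2 * M) (by omega) (by omega) (by unfold W; omega)
  -- general incompatibility of two elements on the same side
  have key : ∀ (u v z z' : ℕ), (-1 ≤ α u + β l ∧ α u + β l < 1) →
      (-1 ≤ α v + β l ∧ α v + β l < 1) → (-1 ≤ α u + β z ∧ α u + β z < 1) →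
      (-1 ≤ α v + β z' ∧ α v + β z' < 1) → ¬ (-1 ≤ α u + β z' ∧ α u + β z' < 1) →
      ¬ (-1 ≤ α v + β z ∧ α v + β z < 1) →
      ((β z ≤ β l ∧ β z' ≤ β l) ∨ (β l ≤ β z ∧ β l ≤ β z')) → False := by
    rintro u v z z' ⟨h1, h2⟩ ⟨h3, h4⟩ ⟨h5, h6⟩ ⟨h7, h8⟩ h9 h10 (⟨h11, h12⟩ | ⟨h11, h12⟩)
    · rcases le_total (β z) (β z') with h13 | h13
      · exact h9 ⟨by linarith, by linarith⟩
      · exact h10 ⟨by linarith, by linarith⟩
    · rcases le_total (β z) (β z') with h13 | h13
      · exact h10 ⟨by linarith, by linarith⟩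
      · exact h9 ⟨by linarith, by linarith⟩
  rcases le_total (β x) (β l) with s1 | s1 <;> rcases le_total (β (x + 2 * M)) (β l) with s2 | s2 <;>
    rcases le_total (β (x + 4 * M)) (β l) with s3 | s3
  · exact key x (x + 2 * M) x (x + 2 * M) a1 a2 b1 b2 c12 c21 (Or.inl ⟨s1, s2⟩)
  · exact key x (x + 2 * M) x (x + 2 * M) a1 a2 b1 b2 c12 c21 (Or.inl ⟨s1, s2⟩)
  · exact key x (x + 4 * M) x (x + 4 * M) a1 a3 b1 b3 c13 c31 (Or.inl ⟨s1, s3⟩)
  · exact key (x + 2 * M) (x + 4 * M) (x + 2 * M) (x + 4 * M) a2 a3 b2 b3 c23 c32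
      (Or.inr ⟨s2, s3⟩)
  · exact key (x + 2 * M) (x + 4 * M) (x + 2 * M) (x + 4 * M) a2 a3 b2 b3 c23 c32
      (Or.inl ⟨s2, s3⟩)
  · exact key x (x + 4 * M) x (x + 4 * M) a1 a3 b1 b3 c13 c31 (Or.inr ⟨s1, s3⟩)
  · exact key x (x + 2 * M) x (x + 2 * M) a1 a2 b1 b2 c12 c21 (Or.inr ⟨s1, s2⟩)
  · exact key x (x + 2 * M) x (x + 2 * M) a1 a2 b1 b2 c12 c21 (Or.inr ⟨s1, s2⟩)

/-- Edges inside the short window are low. -/
lemma low_edge (h : Rep M n K α β t) (hM : 1 ≤ M) (hn : 8 * M ≤ n) {x y : ℕ}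
    (hx : n + 6 * M + 1 ≤ x) (hxK : x + n ≤ K + 1) (hy : y < x + n) (hxy : W M n x y) :
    -1 ≤ α x + β y ∧ α x + β y < 1 := by
  obtain ⟨m, hm, hmax⟩ := Finset.exists_max_image (Finset.range (x + n)) β
    ⟨0, Finset.mem_range.mpr (by omega)⟩
  rw [Finset.mem_range] at hm
  have hmax' : ∀ y ≤ x + n - 1, β y ≤ β m := fun y hy =>
    hmax y (Finset.mem_range.mpr (by omega))
  have h1 := argmax_near h hM hn (l := x + n - 1) (m := m) (by omega) (by omega) (by omega) hmax'
  exact low_of_not h (l := x + n - 1) (m := m) (by omega) (by omega) hmax' (by omega)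
    (by unfold W; omega) (by omega) hxy

/-- Connectivity: a value between two values seen by the chain `[a, b]` is seen by it. -/
lemma chain (h : Rep M n K α β t) (hM : 1 ≤ M) (hn : 8 * M ≤ n) {a : ℕ}
    (ha : n + 6 * M + 1 ≤ a) (p : ℝ) (hp : -1 ≤ α a + p ∧ α a + p < 1) :
    ∀ b, a ≤ b → b + n ≤ K + 1 → ∀ s : ℝ, (-1 ≤ α b + s ∧ α b + s < 1) →
      ∀ r : ℝ, ((p ≤ r ∧ r ≤ s) ∨ (s ≤ r ∧ r ≤ p)) →
        ∃ v, a ≤ v ∧ v ≤ b ∧ (-1 ≤ α v + r ∧ α v + r < 1) := by
  intro b hab
  induction b, hab using Nat.le_induction with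
  | base =>
    intro _ s hs r hr
    refine ⟨a, le_rfl, le_rfl, ?_⟩
    rcases hr with ⟨h1, h2⟩ | ⟨h1, h2⟩ <;> constructor <;> linarith [hp.1, hp.2, hs.1, hs.2]
  | succ b hab ih =>
    intro hb s hs r hr
    have h1 := low_edge h hM hn (x := b) (y := b) (by omega) (by omega) (by omega)
      (by unfold W; omega)
    have h2 := low_edge h hM hn (x := b + 1) (y := b) (by omega) (by omega) (by omega)
      (by unfold W; omega)
    by_cases hcase : (p ≤ r ∧ r ≤ β b) ∨ (β b ≤ r ∧ r ≤ p)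
    · obtain ⟨v, hv1, hv2, hv3⟩ := ih (by omega) (β b) h1 r hcase
      exact ⟨v, hv1, by omega, hv3⟩
    · refine ⟨b + 1, by omega, le_rfl, ?_⟩
      have h3 : (β b ≤ r ∧ r ≤ s) ∨ (s ≤ r ∧ r ≤ β b) := by
        push Not at hcase
        rcases hr with ⟨h4, h5⟩ | ⟨h4, h5⟩
        · left
          exact ⟨(hcase.1 h4).le, h5⟩
        · right
          refine ⟨h4, ?_⟩
          by_contra hlt
          push Not at hlt
          have := hcase.2 hlt.le
          linarith
      rcases h3 with ⟨h4, h5⟩ | ⟨h4, h5⟩ <;> constructor <;> linarith [h2.1, h2.2, hs.1, hs.2]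

/-- The edge at distance exactly `n` is high. -/
lemma high_edge (h : Rep M n K α β t) (hM : 1 ≤ M) (hn : 8 * M ≤ n) {x : ℕ}
    (hx : n + 6 * M + 1 ≤ x) (hxK : x + 2 * n ≤ K) : t ≤ α x + β (x + n) := by
  have h1 := (h x (x + n) (by omega) (by omega)).mp (by unfold W; omega)
  rcases h1 with h1 | h1
  · exfalso
    have hnl : ∀ u v, u ≤ K → v ≤ K → ¬ W M n u v → ¬ (-1 ≤ α u + β v ∧ α u + β v < 1) := by
      intro u v hu hv hW hlow
      exact hW ((h u v hu hv).mpr (Or.inl hlow))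
    have p1 := low_edge h hM hn (x := x) (y := x + M - 1) hx (by omega) (by omega)
      (by unfold W; omega)
    have p1' := low_edge h hM hn (x := x + 1) (y := x + M - 1) (by omega) (by omega) (by omega)
      (by unfold W; omega)
    have p2 := low_edge h hM hn (x := x + 3 * M) (y := x + 3 * M) (by omega) (by omega) (by omega)
      (by unfold W; omega)
    have p3 := low_edge h hM hn (x := x + n) (y := x + n) (by omega) (by omega) (by omega)
      (by unfold W; omega)
    have c1 := chain h hM hn (a := x + 1) (by omega) (β (x + M - 1)) p1' (x + 3 * M) (by omega)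
      (by omega) (β (x + 3 * M)) p2
    have c2 := chain h hM hn (a := x + 3 * M) (by omega) (β (x + 3 * M)) p2 (x + n) (by omega)
      (by omega) (β (x + n)) p3
    -- the three cases
    have d2 : ¬ ((β (x + M - 1) ≤ β (x + 3 * M) ∧ β (x + 3 * M) ≤ β (x + n)) ∨
        (β (x + n) ≤ β (x + 3 * M) ∧ β (x + 3 * M) ≤ β (x + M - 1))) := by
      intro hb
      apply hnl x (x + 3 * M) (by omega) (by omega) (by unfold W; omega)
      rcases hb with ⟨h4, h5⟩ | ⟨h4, h5⟩ <;> constructor <;> linarith [h1.1, h1.2, p1.1, p1.2]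
    have d3 : ¬ ((β (x + M - 1) ≤ β (x + n) ∧ β (x + n) ≤ β (x + 3 * M)) ∨
        (β (x + 3 * M) ≤ β (x + n) ∧ β (x + n) ≤ β (x + M - 1))) := by
      intro hb
      obtain ⟨v, hv1, hv2, hv3⟩ := c1 (β (x + n)) hb
      exact hnl v (x + n) (by omega) (by omega) (by unfold W; omega) hv3
    have d1 : ¬ ((β (x + 3 * M) ≤ β (x + M - 1) ∧ β (x + M - 1) ≤ β (x + n)) ∨
        (β (x + n) ≤ β (x + M - 1) ∧ β (x + M - 1) ≤ β (x + 3 * M))) := by
      intro hb
      obtain ⟨v, hv1, hv2, hv3⟩ := c2 (β (x + M - 1)) hb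
      exact hnl v (x + M - 1) (by omega) (by omega) (by unfold W; omega) hv3
    rcases le_total (β (x + M - 1)) (β (x + 3 * M)) with s1 | s1 <;>
      rcases le_total (β (x + M - 1)) (β (x + n)) with s2 | s2 <;>
      rcases le_total (β (x + 3 * M)) (β (x + n)) with s3 | s3 <;>
      first
        | exact d2 (Or.inl ⟨s1, s3⟩)
        | exact d2 (Or.inr ⟨s3, s1⟩)
        | exact d3 (Or.inl ⟨s2, s3⟩)
        | exact d3 (Or.inr ⟨s3, s2⟩)
        | exact d1 (Or.inl ⟨s1, s2⟩)
        | exact d1 (Or.inr ⟨s2, s1⟩)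
  · exact h1

/-- Rigidity: comparison of the two scales. -/
theorem rigid (h : Rep M n K α β t) (hM : 1 ≤ M) (hn : 8 * M ≤ n)
    (hK : (n + 7 * M + 1) + (n - M + 1) * (2 * M - 1) + 3 * n + 3 * M ≤ K) :
    ((2 * M - 1 : ℕ) : ℝ) * (t - 1) ≤ 2 * ((n - M + 1 : ℕ) : ℝ) := by
  set p := n + 7 * M + 1 with hp
  set r := n - M + 1 with hr
  set s := 2 * M - 1 with hs
  have hr1 : 1 ≤ r := by omega
  have hs1 : 1 ≤ s := by omega
  -- long steps
  have hlong : ∀ k : ℕ, k ≤ s → (k : ℝ) * (t - 1) ≤ β (p + k * r) - β p := by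
    intro k
    induction k with
    | zero => intro _; simp
    | succ k ih =>
      intro hk
      have h1 := ih (by omega)
      have hkr : (k + 1) * r ≤ r * s := by
        rw [mul_comm r s]
        exact Nat.mul_le_mul_right _ hk
      have hkr' : (k + 1) * r = k * r + r := by ring
      rw [hkr'] at hkr
      have h2 := low_edge h hM hn (x := p + k * r - M + 1) (y := p + k * r) (by omega) (by omega)
        (by omega) (by unfold W; omega)
      have h3 := high_edge h hM hn (x := p + k * r - M + 1) (by omega) (by omega)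
      have h4 : p + k * r - M + 1 + n = p + (k + 1) * r := by rw [hkr']; omega
      rw [h4] at h3
      push_cast
      linarith [h2.2]
  -- short steps
  have hshort : ∀ k : ℕ, k ≤ r → β (p + k * s) - β p ≤ 2 * (k : ℝ) := by
    intro k
    induction k with
    | zero => intro _; simp
    | succ k ih =>
      intro hk
      have h1 := ih (by omega)
      have hks : (k + 1) * s ≤ r * s := Nat.mul_le_mul_right _ hk
      have hks' : (k + 1) * s = k * s + s := by ring
      rw [hks'] at hks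
      have h2 := low_edge h hM hn (x := p + k * s + M) (y := p + k * s) (by omega) (by omega)
        (by omega) (by unfold W; omega)
      have h3 := low_edge h hM hn (x := p + k * s + M) (y := p + (k + 1) * s) (by omega)
        (by omega) (by rw [hks']; omega) (by rw [hks']; unfold W; omega)
      push_cast
      linarith [h2.1, h3.2]
  have h1 := hlong s le_rfl
  have h2 := hshort r le_rfl
  have h3 : s * r = r * s := mul_comm _ _
  rw [h3] at h1
  linarith

end

end Pool.Agent.Lib.MP_922b49_co
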